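import Pool.Agent.Helper12.Slit.Asym
/-! Recurrences and uniqueness for the Beta-binomial distribution function `Slit.urn`. -/
namespace Slit
open Finset

/-- one term of the distribution -/
noncomputable def urnw (L j : ℕ) : ℝ := (L.choose j : ℝ) * poch (1 / 3) j * poch (1 / 3) (L - j) / poch (2 / 3) L

theorem poch_succ (s : ℝ) (n : ℕ) : poch s (n + 1) = poch s n * (s + n) := by
  unfold poch; rw [prod_range_succ]

theorem poch_pos' {s : ℝ} (hs : 0 < s) (n : ℕ) : 0 < poch s n :=
  prod_pos fun i _ => by positivity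

theorem urn_eq_sum (L p : ℕ) : urn L p = ∑ j ∈ range (p + 1), urnw L j := by
  unfold urn urnw
  rw [Finset.sum_div]

theorem urn_succ (L p : ℕ) : urn L (p + 1) = urn L p + urnw L (p + 1) := by
  rw [urn_eq_sum, urn_eq_sum, sum_range_succ]

theorem urn_zero (L : ℕ) : urn L 0 = poch (1 / 3) L / poch (2 / 3) L := by
  simp [urn, poch]

theorem urnw_zero (L : ℕ) : urnw L 0 = poch (1 / 3) L / poch (2 / 3) L := by
  simp [urnw, poch]

/-- ratio of consecutive weights, `L = p + q + 1` -/
theorem urnw_ratio (p q : ℕ) :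
    ((p : ℝ) + 1) * (q + 1 / 3) * urnw (p + q + 1) (p + 1) = (q + 1) * (p + 1 / 3) * urnw (p + q + 1) p := by
  unfold urnw
  have e1 : p + q + 1 - (p + 1) = q := by omega
  have e2 : p + q + 1 - p = q + 1 := by omega
  rw [e1, e2, poch_succ (1 / 3) p, poch_succ (1 / 3) q]
  have h : ((p + q + 1).choose (p + 1) : ℝ) * (p + 1) = (p + q + 1).choose p * (q + 1) := by
    have := Nat.choose_succ_right_eq (p + q + 1) p
    have e : p + q + 1 - p = q + 1 := by omega
    rw [e] at this
    exact_mod_cast this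
  have h2 := (poch_pos' (s := 2 / 3) (by norm_num) (p + q + 1)).ne'
  rw [← mul_div_assoc, ← mul_div_assoc]
  congr 1
  linear_combination (q + 1 / 3 : ℝ) * poch (1 / 3) p * (1 / 3 + (p : ℝ)) * poch (1 / 3) q * h

/-- the three term relation at fixed `L` -/
theorem urn_three (p q : ℕ) :
    ((p : ℝ) + 2) * (q + 1 / 3) * (urn (p + q + 2) (p + 2) - urn (p + q + 2) (p + 1)) =
      (q + 1) * (p + 4 / 3) * (urn (p + q + 2) (p + 1) - urn (p + q + 2) p) := by
  rw [urn_succ _ (p + 1), urn_succ _ p]
  have := urnw_ratio (p + 1) q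
  have e : p + 1 + q + 1 = p + q + 2 := by ring
  rw [e] at this
  push_cast at this
  linear_combination this

/-- the relation at `p = 0` -/
theorem urn_three_zero (q : ℕ) :
    ((q : ℝ) + 1 / 3) * (urn (q + 1) 1 - urn (q + 1) 0) = (q + 1) * (1 / 3) * urn (q + 1) 0 := by
  have := urnw_ratio 0 q
  rw [show (0 + q + 1) = q + 1 by ring] at this
  rw [urn_succ _ 0, show urn (q + 1) 0 = urnw (q + 1) 0 by rw [urn_zero, urnw_zero]]
  push_cast at this
  linear_combination this

theorem urnw_step (L j : ℕ) (h : j ≤ L) :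
    ((L : ℝ) + 2 / 3) * urnw (L + 1) (j + 1) = (j + 1 / 3) * urnw L j + (L - j - 2 / 3) * urnw L (j + 1) := by
  unfold urnw
  have h2 := (poch_pos' (s := 2 / 3) (by norm_num) L).ne'
  have h3 := (poch_pos' (s := 2 / 3) (by norm_num) (L + 1)).ne'
  have e1 : L + 1 - (j + 1) = L - j := by omega
  rw [e1, poch_succ (2 / 3) L, poch_succ (1 / 3) j]
  have h4 : ((L + 1).choose (j + 1) : ℝ) = L.choose j + L.choose (j + 1) := by
    exact_mod_cast Nat.choose_succ_succ L j
  rw [h4]
  have h5 : (2 / 3 + (L : ℝ)) ≠ 0 := by positivity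
  rcases Nat.lt_or_ge j L with h6 | h6
  · obtain ⟨d, rfl⟩ : ∃ d, L = j + 1 + d := ⟨L - (j + 1), by omega⟩
    have e2 : j + 1 + d - j = d + 1 := by omega
    have e3 : j + 1 + d - (j + 1) = d := by omega
    rw [e2, e3, poch_succ (1 / 3) d]
    push_cast at h5 ⊢
    field_simp
    ring
  · have : j = L := le_antisymm h h6
    subst this
    have : (j.choose (j + 1) : ℝ) = 0 := by
      rw [Nat.choose_succ_self]; simp
    rw [this]
    simp only [Nat.sub_self]
    field_simp
    ring

/-- Pascal type rule in `L` -/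
theorem urn_pascal (L p : ℕ) (h : p + 1 ≤ L) :
    ((L : ℝ) + 2 / 3) * urn (L + 1) (p + 1) = (p + 4 / 3) * urn L p + (L - p - 2 / 3) * urn L (p + 1) := by
  induction p with
  | zero =>
    rw [urn_succ, urn_succ, urn_zero, urn_zero]
    have h1 := urnw_step L 0 (by omega)
    rw [urnw_zero] at h1
    have h2 := (poch_pos' (s := 2 / 3) (by norm_num) L).ne'
    rw [poch_succ (2 / 3) L, poch_succ (1 / 3) L]
    have h5 : (2 / 3 + (L : ℝ)) ≠ 0 := by positivity
    have h6 : ((L : ℝ) + 2 / 3) * (poch (1 / 3) L * (1 / 3 + ↑L) / (poch (2 / 3) L * (2 / 3 + ↑L))) =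
        (1 / 3 + L) * (poch (1 / 3) L / poch (2 / 3) L) := by
      field_simp
      ring
    rw [mul_add, h6, h1]
    push_cast
    ring
  | succ p ih =>
    have h1 := ih (by omega)
    have h2 := urnw_step L (p + 1) (by omega)
    rw [urn_succ (L + 1) (p + 1), urn_succ L (p + 1), mul_add, h1, h2, urn_succ L p]
    push_cast
    ring

/-- total mass -/
theorem urn_full (L : ℕ) : urn L L = 1 := by
  induction L with
  | zero => simp [urn, poch]
  | succ L ih =>
    have h2 : (0 : ℝ) < (L : ℝ) + 2 / 3 := by positivity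
    rcases Nat.eq_zero_or_pos L with h | h
    · subst h
      simp [urn, poch, sum_range_succ]
      norm_num
    · have h0 : urn L (L + 1) = urn L L := by
        rw [urn_succ]
        have : urnw L (L + 1) = 0 := by
          unfold urnw; rw [Nat.choose_succ_self]; simp
        rw [this, add_zero]
      obtain ⟨K, rfl⟩ : ∃ K, L = K + 1 := ⟨L - 1, by omega⟩
      -- mass of `K + 2`
      have h1 := urn_pascal (K + 1) K le_rfl
      have h3 := urnw_step (K + 1) (K + 1) le_rfl
      have h4 : urnw (K + 1) (K + 1 + 1) = 0 := by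
        unfold urnw; rw [Nat.choose_succ_self]; simp
      rw [h4, mul_zero, add_zero] at h3
      rw [urn_succ (K + 1 + 1) (K + 1)]
      have h5 : urn (K + 1) (K + 1) = urn (K + 1) K + urnw (K + 1) (K + 1) := urn_succ _ _
      have h6 : ((K : ℝ) + 1 + 2 / 3) * (urn (K + 1 + 1) (K + 1) + urnw (K + 1 + 1) (K + 1 + 1)) = (K : ℝ) + 1 + 2 / 3 := by
        push_cast at h1 h3
        rw [mul_add, h1, h3]
        rw [ih] at h5 ⊢
        linear_combination (-(K : ℝ) - 4 / 3) * h5
      push_cast at h2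
      have h7 : ((K : ℝ) + 1 + 2 / 3) ≠ 0 := by positivity
      exact mul_left_cancel₀ h7 (by rw [h6, mul_one])

/-- symmetry -/
theorem urn_symm (p q : ℕ) : urn (p + q + 1) p + urn (p + q + 1) q = 1 := by
  rw [← urn_full (p + q + 1), urn_eq_sum, urn_eq_sum, urn_eq_sum]
  have h1 : ∑ j ∈ range (q + 1), urnw (p + q + 1) j = ∑ j ∈ Ico (p + 1) (p + q + 1 + 1), urnw (p + q + 1) j := by
    rw [Finset.sum_Ico_eq_sum_range]
    rw [show p + q + 1 + 1 - (p + 1) = q + 1 by omega]
    rw [← Finset.sum_range_reflect]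
    apply Finset.sum_congr rfl
    intro j hj
    have hj' := mem_range.1 hj
    unfold urnw
    have e1 : q + 1 - 1 - j = q - j := by omega
    have e2 : p + q + 1 - (q - j) = p + 1 + j := by omega
    have e3 : p + q + 1 - (p + 1 + j) = q - j := by omega
    rw [e1, e2, e3]
    have e4 : (p + q + 1).choose (q - j) = (p + q + 1).choose (p + 1 + j) := by
      rw [← e2]; exact (Nat.choose_symm (by omega)).symm
    rw [e4]
    ring
  rw [h1, Finset.sum_range_add_sum_Ico _ (by omega)]

/-- uniqueness from the three term relation at fixed `L = n + 2`, a normalisation by the symmetry -/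
theorem urn_unique (L : ℕ) (hL : 2 ≤ L) (g : ℕ → ℝ)
    (h : ∀ p q : ℕ, p + q + 2 = L → ((p : ℝ) + 2) * (q + 1 / 3) * (g (p + 2) - g (p + 1)) =
      (q + 1) * (p + 4 / 3) * (g (p + 1) - g p))
    (h0 : g 0 = urn L 0) (h1 : g 1 = urn L 1) (p : ℕ) (hp : p ≤ L) : g p = urn L p := by
  have key : ∀ p, p + 1 ≤ L → g p = urn L p ∧ g (p + 1) = urn L (p + 1) := by
    intro p
    induction p with
    | zero => intro _; exact ⟨h0, h1⟩
    | succ p ih =>
      intro hp
      obtain ⟨a, b⟩ := ih (by omega)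
      refine ⟨b, ?_⟩
      obtain ⟨q, hq⟩ : ∃ q, p + q + 2 = L := ⟨L - p - 2, by omega⟩
      have e1 := h p q hq
      have e2 := urn_three p q
      rw [hq] at e2
      rw [a, b] at e1
      have h3 : ((p : ℝ) + 2) * (q + 1 / 3) ≠ 0 := by positivity
      have h4 : g (p + 2) - urn L (p + 1) = urn L (p + 2) - urn L (p + 1) :=
        mul_left_cancel₀ h3 (by rw [e1, e2])
      have : g (p + 2) = urn L (p + 2) := by linarith
      exact this
  rcases Nat.eq_zero_or_pos p with h2 | h2
  · subst h2; exact h0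
  · obtain ⟨r, rfl⟩ : ∃ r, p = r + 1 := ⟨p - 1, by omega⟩
    exact (key r hp).2
end Slit
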